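import Pool.Agent.Q170.Kraw.Final

/-!
# Optimal part sizes for complete oddly bipartite hypergraphs

Full answer to Q1 of MP_66ba75_co, for every fixed `k ≥ 2` and all sufficiently large `n`.

Definitions (in `Pool.Agent.Q170.Kraw.Basic` and `.Main`):
* `binom x j = x (x-1) ... (x-j+1) / j!` for real `x`;
* `kraw m N x = ∑_{j ≤ m} (-1)^j binom x j * binom (N - x) (m - j)`, the Krawtchouk polynomial
  `K_m(x; N)`;
* `edges k n a = ∑_{i odd, i ≤ 2k} C(a, i) C(n - a, 2k - i)`, the number `e_k(n, a)`;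
* `maximisers k n`, the set `M_k(n)` of all `a ≤ n` with `e_k(n, a)` maximal over `{0, ..., n}`;
* `smallestZero k n`, the smallest real zero `ξ_k(n)` of `K_{2k-1}(x; n-1)`.

The theorem: (1) for `k ≥ 2` and `n ≥ n₀(k)` the smallest zero `ξ = ξ_k(n)` exists and `M_k(n)` is
exactly the set of the `a ≤ n` such that `a` or `n - a` lies in `[ξ, ξ + 1]` (so `a` or `n - a` is
`ξ` rounded up, with a tie `ξ, ξ + 1` exactly when `ξ` is an integer); (2) `ξ_k(n) = n/2 -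
(y_k/2) √n + o(√n)` where `y_k > 0` is the largest zero of the Hermite polynomial `He_{2k-1}`;
(3), (4) closed formulas for `ξ_2(n)` and `ξ_3(n)`.
-/

open Filter Topology

theorem Pool.Agent.Results.MP_66ba75_co.MaximisersDetermined.result :
    (∀ k : ℕ, 2 ≤ k → ∃ n₀ : ℕ, ∀ n : ℕ, n₀ ≤ n →
      IsLeast {x : ℝ | Pool.Agent.Q170.Kraw.kraw (2 * k - 1) ((n : ℝ) - 1) x = 0}
        (Pool.Agent.Q170.Kraw.smallestZero k n) ∧
      Pool.Agent.Q170.Kraw.maximisers k n = {a : ℕ | a ≤ n ∧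
        ((Pool.Agent.Q170.Kraw.smallestZero k n ≤ (a : ℝ) ∧
            (a : ℝ) ≤ Pool.Agent.Q170.Kraw.smallestZero k n + 1) ∨
          (Pool.Agent.Q170.Kraw.smallestZero k n ≤ (n : ℝ) - a ∧
            (n : ℝ) - a ≤ Pool.Agent.Q170.Kraw.smallestZero k n + 1))}) ∧
    (∀ k : ℕ, 2 ≤ k → ∃ y : ℝ,
      IsGreatest {y : ℝ | Polynomial.aeval y (Polynomial.hermite (2 * k - 1)) = 0} y ∧ 0 < y ∧
      Tendsto (fun n : ℕ => ((n : ℝ) / 2 - Pool.Agent.Q170.Kraw.smallestZero k n) / √(n : ℝ))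
        atTop (𝓝 (y / 2))) ∧
    (∀ n : ℕ, 2 ≤ n →
      Pool.Agent.Q170.Kraw.smallestZero 2 n = ((n : ℝ) - 1 - √(3 * n - 5)) / 2) ∧
    (∀ n : ℕ, 3 ≤ n → Pool.Agent.Q170.Kraw.smallestZero 3 n =
      ((n : ℝ) - 1 - √(5 * n - 15 + √(10 * n ^ 2 - 70 * n + 136))) / 2) :=
  Pool.Agent.Q170.Kraw.main
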